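import Pool.Agent.Y112.KD.Asym
import Pool.Agent.Y112.SR.Defs

/-!
# Kimura-finite objects: definitions
-/

set_option autoImplicit false

open CategoryTheory Limits MonoidalCategory
open Pool.Agent.Y112.SR Pool.Agent.Y112.KD

namespace Pool.Agent.Q263.KT

universe v u

section

variable {C : Type u} [Category.{v} C] [Preadditive C] [Linear ℚ C] [MonoidalCategory C]
  [SymmetricCategory C]

/-- The object `X` is Kimura-finite: it is the direct sum of an object `E` some exterior power of
which is zero, and of an object `O` some symmetric power of which is zero. The vanishing of the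
`n`-th exterior (symmetric) power of `E` is expressed by `Kills (-1) E n` (`Kills 1 E n`): all
morphisms with source `E ^ ⊗ n` which are multiplied by `-1` (by `1`) by the exchanges of
neighbouring factors are zero. -/
def IsKimura (X : C) : Prop :=
  ∃ (E O : C) (i : E ⟶ X) (r : X ⟶ E) (j : O ⟶ X) (s : X ⟶ O),
    i ≫ r = 𝟙 E ∧ j ≫ s = 𝟙 O ∧ i ≫ s = 0 ∧ j ≫ r = 0 ∧ r ≫ i + s ≫ j = 𝟙 X ∧
    (∃ n, 1 ≤ n ∧ Kills (-1) E n) ∧ ∃ n, 1 ≤ n ∧ Kills 1 O n

end

end Pool.Agent.Q263.KT
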