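import Pool.Agent.Q263.KT.Main

/-!
# Kimura-finiteness descends along tensor products: the main theorems
-/

set_option autoImplicit false
set_option linter.unusedSectionVars false
set_option linter.unusedSimpArgs false
set_option backward.isDefEq.respectTransparency false
set_option backward.defeqAttrib.useBackward true

open CategoryTheory Limits MonoidalCategory
open Pool.Agent.Y112.SR Pool.Agent.Y112.KD Pool.Agent.TH829.Kim

namespace Pool.Agent.Q263.KT

universe v u w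

open Functor.LaxMonoidal Functor.OplaxMonoidal

section

variable {C : Type u} [Category.{v} C] [Preadditive C] [Linear ℚ C] [MonoidalCategory C]
  [MonoidalPreadditive C] [MonoidalLinear ℚ C] [SymmetricCategory C]
  [RightRigidCategory C] {K : Type w} [Field K] {R : SuperRealisation C K}

/-- The tensor product of endomorphisms. -/
def tE {M N : C} (f : End M) (g : End N) : End (M ⊗ N) := ((f : M ⟶ M) ⊗ₘ (g : N ⟶ N) : M ⊗ N ⟶ M ⊗ N)

lemma tE_mul {M N : C} (f f' : End M) (g g' : End N) : tE f g * tE f' g' = tE (f * f') (g * g') := by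
  simp only [tE, End.mul_def]
  exact tensorHom_comp_tensorHom _ _ _ _

lemma tE_pow {M N : C} (f : End M) (g : End N) (k : ℕ) :
    tE f g ^ (k + 1) = tE (f ^ (k + 1)) (g ^ (k + 1)) := by
  induction k with
  | zero => rw [zero_add, pow_one, pow_one, pow_one]
  | succ k ih => rw [pow_succ, ih, tE_mul, ← pow_succ, ← pow_succ]

lemma map_pow_par {N : C} {g : End N} (hg : R.H.map (g : N ⟶ N) = R.par N) (k : ℕ) :
    R.H.map ((g ^ (2 * k + 1) : End N) : N ⟶ N) = R.par N := by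
  induction k with
  | zero => rw [mul_zero, zero_add, pow_one, hg]
  | succ k ih =>
    have e : g ^ (2 * (k + 1) + 1) = g ^ (2 * k + 1) * g * g := by
      rw [show 2 * (k + 1) + 1 = 2 * k + 1 + 1 + 1 by ring, pow_succ, pow_succ]
    rw [e, End.mul_def, End.mul_def, Functor.map_comp, Functor.map_comp, ih, hg, ← Category.assoc,
      R.par_sq, Category.id_comp]

lemma NilR.of_tensor_aux (hU : UnitQ C) {M N : C} (h : NilR R (M ⊗ N))
    (hN : ¬ IsZero (R.H.obj N)) (g : End N) (hg : R.H.map (g : N ⟶ N) = R.par N) : NilR R M := by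
  have hc := R_charZero R
  intro f hf
  have h1 : R.H.map (tE f g : M ⊗ N ⟶ M ⊗ N) = 0 := by
    rw [tE, Functor.Monoidal.map_tensor, hf, MonoidalCategory.tensorHom_def]
    have h2 : (0 : R.H.obj M ⟶ R.H.obj M) ▷ R.H.obj N = 0 := by
      simp
    rw [h2, zero_comp, zero_comp, comp_zero]
  obtain ⟨k, hk⟩ := h (tE f g) h1
  have h2 : tE f g ^ (2 * k + 1) = 0 := by
    rw [show 2 * k + 1 = k + (k + 1) by ring, pow_add, hk, zero_mul]
  rw [tE_pow f g (2 * k)] at h2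
  have h3 : ptrL M N (tE (f ^ (2 * k + 1)) (g ^ (2 * k + 1)) : M ⊗ N ⟶ M ⊗ N) =
      trq hU N (g ^ (2 * k + 1)) • ((f ^ (2 * k + 1) : End M) : M ⟶ M) :=
    ptr_tensor ((f ^ (2 * k + 1) : End M) : M ⟶ M) ((g ^ (2 * k + 1) : End N) : N ⟶ N)
      (trq hU N (g ^ (2 * k + 1))) (trq_spec hU _)
  have h4 : ptrL M N (tE (f ^ (2 * k + 1)) (g ^ (2 * k + 1)) : M ⊗ N ⟶ M ⊗ N) = 0 := by
    rw [h2]
    exact (ptrL M N).map_zero
  rw [h4] at h3
  refine ⟨2 * k + 1, ?_⟩
  have h6 : trq hU N (g ^ (2 * k + 1)) ≠ 0 := by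
    intro h7
    have h8 := real_tr R hU ((g ^ (2 * k + 1) : End N) : N ⟶ N)
    have h0 := R.finite N
    rw [map_pow_par hg, R.par_sq, ModuleCat.hom_id, LinearMap.trace_id] at h8
    have h9 : ((trq hU N (g ^ (2 * k + 1)) : ℚ) : K) = (Module.finrank K (R.H.obj N) : K) := h8
    rw [h7, Rat.cast_zero] at h9
    exact finrank_ne_zero R hN (by exact_mod_cast h9.symm)
  have h7 := congrArg (fun z => (trq hU N (g ^ (2 * k + 1)))⁻¹ • z) h3
  simp only [smul_smul, inv_mul_cancel₀ h6, one_smul, smul_zero] at h7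
  exact h7.symm

/-- The nilpotence descends along tensor products. -/
lemma NilR.of_tensor (hU : UnitQ C) {M N : C} (h : NilR R (M ⊗ N)) (hN : ¬ IsZero (R.H.obj N))
    (hC : R.CPlus N) : NilR R M := by
  obtain ⟨g, hg⟩ := (cplus_iff R N).1 hC
  exact NilR.of_tensor_aux hU h hN g hg

lemma par_tensor_eq {A B : C} {a b : K} (hA : R.par A = a • 𝟙 _) (hB : R.par B = b • 𝟙 _) :
    R.par (A ⊗ B) = (a * b) • 𝟙 _ := by
  have h1 := R.par_tensor A B
  have h2 : R.par (A ⊗ B) = δ R.H A B ≫ (R.par A ⊗ₘ R.par B) ≫ μ R.H A B := by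
    rw [← h1, Functor.Monoidal.δ_μ_assoc]
  rw [h2, hA, hB, MonoidalCategory.tensorHom_def]
  have h3 : (a • 𝟙 (R.H.obj A)) ▷ R.H.obj B = a • 𝟙 _ := by
    rw [MonoidalLinear.smul_whiskerRight, id_whiskerRight]
  have h4 : R.H.obj A ◁ (b • 𝟙 (R.H.obj B)) = b • 𝟙 _ := by
    rw [MonoidalLinear.whiskerLeft_smul, MonoidalCategory.whiskerLeft_id]
  rw [h3, h4, Linear.smul_comp, Linear.comp_smul, Category.comp_id, smul_smul, Linear.smul_comp,
    Category.id_comp, Linear.comp_smul, Functor.Monoidal.δ_μ]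

/-- A pure object which has a tensor product with a pure object inside a Kimura-finite object. -/
lemma kills_of_tensor (hU : UnitQ C) {X A B : C} (D : KD X) (i : A ⊗ B ⟶ X) (r : X ⟶ A ⊗ B)
    (hir : i ≫ r = 𝟙 _) (hB : ¬ IsZero (R.H.obj B)) {η θ : ℚ} (hη : η = 1 ∨ η = -1)
    (hθ : θ = 1 ∨ θ = -1) (hA : R.par A = ((-η : ℚ) : K) • 𝟙 _) (hB' : R.par B = ((θ : ℚ) : K) • 𝟙 _) :
    ∃ n, asym η A (n + 1) = 0 := by
  have hc := R_charZero R
  have hη2 : η * η = 1 := by rcases hη with h | h <;> rw [h] <;> norm_num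
  have hθ2 : θ * θ = 1 := by rcases hθ with h | h <;> rw [h] <;> norm_num
  have h1 : R.par (A ⊗ B) = ((-(η * θ) : ℚ) : K) • 𝟙 _ := by
    rw [par_tensor_eq hA hB']
    congr 1
    push_cast
    ring
  obtain ⟨h2, h3⟩ := D.pure (R := R) hU i r hir
  have h4 : η * θ = 1 ∨ η * θ = -1 := by
    rcases hη with h | h <;> rcases hθ with h' | h' <;> rw [h, h'] <;> norm_num
  have h5 : ∃ n, asym (η * θ) (A ⊗ B) (n + 1) = 0 := by
    rcases h4 with h | h
    · rw [h] at h1 ⊢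
      exact ⟨D.m, h3 (by rw [h1]; simp)⟩
    · rw [h] at h1 ⊢
      exact ⟨D.n, h2 (by rw [h1]; simp)⟩
  obtain ⟨n, hn⟩ := h5
  exact ⟨n, kill_descent hU hη2 hθ2 A B (n + 1) hn (F_one_ne R hU θ hθ2 hB' hB (n + 1))⟩

/-- Descent for an object all of whose pure parts are treated. -/
theorem isKimura_of_parts [IsIdempotentComplete C] (hU : UnitQ C) {X M N : C} (D : KD X)
    (i : M ⊗ N ⟶ X) (r : X ⟶ M ⊗ N) (hir : i ≫ r = 𝟙 _) (hM : NilR R M) (hN : NilR R N)
    (cM : R.CPlus M) (cN : R.CPlus N) (h0 : ¬ IsZero (R.H.obj N)) : IsKimura M := by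
  have hc := R_charZero R
  obtain ⟨E, O, i1, r1, j1, s1, a1, a2, a3, a4, a5, a6, a7⟩ := exists_parts hM cM
  obtain ⟨E', O', i2, r2, j2, s2, b1, b2, b3, b4, b5, b6, b7⟩ := exists_parts hN cN
  have hpure : ∃ (B : C) (ι : B ⟶ N) (ρ : N ⟶ B) (θ : ℚ), ι ≫ ρ = 𝟙 B ∧ (θ = 1 ∨ θ = -1) ∧
      R.par B = ((θ : ℚ) : K) • 𝟙 _ ∧ ¬ IsZero (R.H.obj B) := by
    by_cases hE : IsZero (R.H.obj E')
    · refine ⟨O', j2, s2, -1, b2, Or.inr rfl, by rw [b7]; simp, fun hO => h0 ?_⟩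
      rw [IsZero.iff_id_eq_zero, ← CategoryTheory.Functor.map_id, ← b5, Functor.map_add,
        Functor.map_comp, Functor.map_comp, hE.eq_zero_of_tgt (R.H.map r2),
        hO.eq_zero_of_tgt (R.H.map s2), zero_comp, zero_comp, add_zero]
    · exact ⟨E', i2, r2, 1, b1, Or.inl rfl, by rw [b6]; simp, hE⟩
  obtain ⟨B, ι, ρ, θ, hιρ, hθ, hB', hB⟩ := hpure
  have hret : ∀ {A : C} (x : A ⟶ M) (y : M ⟶ A), x ≫ y = 𝟙 A →
      ((x ⊗ₘ ι) ≫ i) ≫ (r ≫ (y ⊗ₘ ρ)) = 𝟙 (A ⊗ B) := by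
    intro A x y hxy
    rw [Category.assoc, ← Category.assoc i, hir, Category.id_comp, tensorHom_comp_tensorHom, hxy,
      hιρ, id_tensorHom_id]
  obtain ⟨n, hn⟩ := kills_of_tensor hU D ((i1 ⊗ₘ ι) ≫ i) (r ≫ (r1 ⊗ₘ ρ)) (hret i1 r1 a1) hB
    (η := -1) (Or.inr rfl) hθ (by rw [a6]; simp) hB'
  obtain ⟨m, hm⟩ := kills_of_tensor hU D ((j1 ⊗ₘ ι) ≫ i) (r ≫ (s1 ⊗ₘ ρ)) (hret j1 s1 a2) hB
    (η := 1) (Or.inl rfl) hθ (by rw [a7]; simp) hB'
  exact ⟨E, O, i1, r1, j1, s1, a1, a2, a3, a4, a5, kills_of_asym neg_one_sq hn,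
    kills_of_asym (by norm_num) hm⟩

/-- The zero object is Kimura-finite. -/
lemma isKimura_of_zero {M : C} (h : 𝟙 M = 0) : IsKimura M := by
  have hz : ∀ {Z : C} (x : Z ⟶ M), x = 0 := fun x => by rw [← Category.comp_id x, h, comp_zero]
  have hk : ∀ η : ℚ, Kills η M 1 := by
    intro η Z x _
    have h1 : 𝟙 (tp M 1) = 0 := by
      change 𝟙 (𝟙_ C ⊗ M) = 0
      rw [← id_tensorHom_id, h, MonoidalCategory.tensorHom_def]
      simp
    rw [← Category.id_comp x, h1, zero_comp]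
  refine ⟨M, M, 0, 0, 0, 0, ?_, ?_, ?_, ?_, ?_, ⟨1, le_rfl, hk _⟩, ⟨1, le_rfl, hk _⟩⟩
  all_goals first | (rw [h]; simp) | simp

/-- **Kimura-finiteness descends along tensor products.** -/
theorem isKimura_of_tensor [IsIdempotentComplete C] (R : SuperRealisation C K) (hU : UnitQ C)
    {M N : C} (hN : ¬ IsZero (R.H.obj N)) (h0 : ¬ IsZero (R.H.obj M) ∨ R.CPlus N)
    (h : IsKimura (M ⊗ N)) : IsKimura M := by
  obtain ⟨D⟩ := exists_KD h
  have hX : NilR R (M ⊗ N) := D.nilR hU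
  have cX : R.CPlus (M ⊗ N) := D.cplus
  have cM : R.CPlus M := cplus_of_tensor R hN cX
  have cN : R.CPlus N := h0.elim (fun h => cplus_of_tensor R h (cplus_braid R cX)) id
  have nM : NilR R M := hX.of_tensor hU hN cN
  by_cases hM : IsZero (R.H.obj M)
  · -- the object is zero
    obtain ⟨k, hk⟩ := nM (1 : End M) (hM.eq_of_src _ _)
    rw [one_pow] at hk
    exact isKimura_of_zero hk
  · have nN : NilR R N := by
      have hX' : NilR R (N ⊗ M) := hX.retract (β_ N M).hom (β_ N M).inv (by simp)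
      exact hX'.of_tensor hU hM cM
    exact isKimura_of_parts hU D (𝟙 _) (𝟙 _) (by simp) nM nN cM cN hN

/-- A retract of a Kimura-finite object is Kimura-finite. -/
theorem isKimura_of_retract [IsIdempotentComplete C] (R : SuperRealisation C K) (hU : UnitQ C)
    {X Y : C} (i : Y ⟶ X) (r : X ⟶ Y) (hir : i ≫ r = 𝟙 Y) (h : IsKimura X) : IsKimura Y := by
  have hc := R_charZero R
  obtain ⟨D⟩ := exists_KD h
  have nY : NilR R Y := (D.nilR (R := R) hU).retract i r hir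
  have cY : R.CPlus Y := cplus_retract R i r hir D.cplus
  obtain ⟨E, O, i1, r1, j1, s1, a1, a2, a3, a4, a5, a6, a7⟩ := exists_parts nY cY
  have h1 := (D.pure (R := R) hU (i1 ≫ i) (r ≫ r1) (by
    rw [Category.assoc, ← Category.assoc i, hir, Category.id_comp, a1])).1 a6
  have h2 := (D.pure (R := R) hU (j1 ≫ i) (r ≫ s1) (by
    rw [Category.assoc, ← Category.assoc i, hir, Category.id_comp, a2])).2 a7
  exact ⟨E, O, i1, r1, j1, s1, a1, a2, a3, a4, a5, kills_of_asym neg_one_sq h1,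
    kills_of_asym (by norm_num) h2⟩

end

end Pool.Agent.Q263.KT
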