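import Pool.Agent.Q263.KT.Vec
import Pool.Agent.Q263.KT.Defs
import Pool.Agent.Q263.NCK.Split

/-!
# Kimura-finiteness descends along tensor products
-/

set_option autoImplicit false
set_option linter.unusedSectionVars false
set_option linter.unusedSimpArgs false
set_option backward.isDefEq.respectTransparency false
set_option backward.defeqAttrib.useBackward true

open CategoryTheory Limits MonoidalCategory
open Pool.Agent.Y112.SR Pool.Agent.Y112.KD Pool.Agent.TH829.Kim

namespace Pool.Agent.Q263.KT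

universe v u w

open Functor.LaxMonoidal Functor.OplaxMonoidal

section

variable {C : Type u} [Category.{v} C] [Preadditive C] [Linear ℚ C] [MonoidalCategory C]
  [MonoidalPreadditive C] [MonoidalLinear ℚ C] [SymmetricCategory C]
  [RightRigidCategory C] {K : Type w} [Field K] (R : SuperRealisation C K)

/-- All endomorphisms of `X` with zero realisation are nilpotent. -/
def NilR (X : C) : Prop := ∀ f : End X, R.H.map (f : X ⟶ X) = 0 → IsNilpotent f

variable {R}

lemma trq_zero (hU : UnitQ C) {X : C} (f : End X) (hf : R.H.map (f : X ⟶ X) = 0) :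
    trq hU X f = 0 := by
  have hc := R_charZero R
  have h1 := real_tr R hU (f : X ⟶ X)
  rw [hf, zero_comp, ModuleCat.hom_zero, map_zero] at h1
  exact_mod_cast h1

lemma inRad_of_map (hU : UnitQ C) {X : C} (f : End X) (hf : R.H.map (f : X ⟶ X) = 0) :
    InRad (trq hU X) f := by
  intro γ
  apply trq_zero (R := R) hU
  rw [End.mul_def, Functor.map_comp, hf, comp_zero]

lemma asym_of_kills {η : ℚ} (hη : η * η = 1) {X : C} (h : ∃ n, 1 ≤ n ∧ Kills η X n) :
    ∃ n, asym η X (n + 1) = 0 := by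
  obtain ⟨n, hn, h⟩ := h
  obtain ⟨n, rfl⟩ := Nat.exists_eq_add_of_le' hn
  exact ⟨n, (kills_iff hη X _).1 h⟩

lemma kills_of_asym {η : ℚ} (hη : η * η = 1) {X : C} {n : ℕ} (h : asym η X (n + 1) = 0) :
    ∃ n, 1 ≤ n ∧ Kills η X n := ⟨n + 1, by omega, (kills_iff hη X _).2 h⟩

lemma neg_one_sq : (-1 : ℚ) * (-1) = 1 := by norm_num

/-- The data of a Kimura-finite object. -/
structure KD (X : C) where
  E : C
  O : C
  i : E ⟶ X
  r : X ⟶ E
  j : O ⟶ X
  s : X ⟶ O
  ir : i ≫ r = 𝟙 E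
  js : j ≫ s = 𝟙 O
  is : i ≫ s = 0
  jr : j ≫ r = 0
  one : r ≫ i + s ≫ j = 𝟙 X
  n : ℕ
  hE : asym (-1) E (n + 1) = 0
  m : ℕ
  hO : asym 1 O (m + 1) = 0

lemma exists_KD {X : C} (h : IsKimura X) : Nonempty (KD X) := by
  obtain ⟨E, O, i, r, j, s, h1, h2, h3, h4, h5, h6, h7⟩ := h
  obtain ⟨n, hn⟩ := asym_of_kills neg_one_sq h6
  obtain ⟨m, hm⟩ := asym_of_kills (by norm_num) h7
  exact ⟨⟨E, O, i, r, j, s, h1, h2, h3, h4, h5, n, hn, m, hm⟩⟩

section KDs

variable {X : C} (D : KD X)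

variable (R) in
lemma KD.parE : R.par D.E = 𝟙 _ := by
  have h := par_of_asym R neg_one_sq D.hE
  rw [h]
  simp

variable (R) in
lemma KD.parO : R.par D.O = -𝟙 _ := by
  have h := par_of_asym R (by norm_num) D.hO
  rw [h]
  simp

/-- The even projector. -/
def KD.e : End X := D.r ≫ D.i

lemma KD.e_idem : D.e * D.e = D.e := by
  rw [End.mul_def]
  change (D.r ≫ D.i) ≫ (D.r ≫ D.i) = D.r ≫ D.i
  rw [Category.assoc, ← Category.assoc D.i, D.ir, Category.id_comp]

lemma KD.one_sub : (1 : End X) - D.e = (D.s ≫ D.j : X ⟶ X) := by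
  change 𝟙 X - D.r ≫ D.i = D.s ≫ D.j
  rw [← D.one]
  abel

include D in
/-- The realisation of a Kimura-finite object: endomorphisms with zero realisation are nilpotent. -/
lemma KD.nilR (hU : UnitQ C) : NilR R X := by
  intro f hf
  have hs : ∀ a b : End X, trq hU X (a * b) = trq hU X (b * a) := fun a b =>
    trq_comm' R hU (b : X ⟶ X) (a : X ⟶ X)
  exact isNilpotent_of_inRad hs D.e_idem (killed hU neg_one_sq D.i D.r D.n D.hE D.e rfl)
    (killed hU (by norm_num) D.j D.s D.m D.hO (1 - D.e) D.one_sub) (inRad_of_map (R := R) hU f hf)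

include D in
/-- The sign conjecture for a Kimura-finite object. -/
lemma KD.cplus : R.CPlus X := by
  rw [cplus_iff]
  refine ⟨D.r ≫ D.i - D.s ≫ D.j, ?_⟩
  have h1 : R.H.map (D.r ≫ D.i) ≫ R.par X = R.H.map (D.r ≫ D.i) := by
    rw [Functor.map_comp, Category.assoc, R.par_natural, D.parE R, Category.id_comp]
  have h2 : R.H.map (D.s ≫ D.j) ≫ R.par X = -R.H.map (D.s ≫ D.j) := by
    rw [Functor.map_comp, Category.assoc, R.par_natural, D.parO R, Preadditive.neg_comp,
      Category.id_comp, Preadditive.comp_neg]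
  have h3 : R.par X = R.H.map (𝟙 X) ≫ R.par X := by
    rw [CategoryTheory.Functor.map_id, Category.id_comp]
  rw [h3, ← D.one, Functor.map_add, Preadditive.add_comp, h1, h2, Functor.map_sub, sub_eq_add_neg]

end KDs

lemma pow_end {X : C} (f : End X) {Y : C} (i : Y ⟶ X) (r : X ⟶ Y) (hir : i ≫ r = 𝟙 Y)
    (g : End Y) (hf : f = (r ≫ (g : Y ⟶ Y) ≫ i : X ⟶ X)) (k : ℕ) :
    (f ^ (k + 1) : End X) = (r ≫ ((g ^ (k + 1) : End Y) : Y ⟶ Y) ≫ i : X ⟶ X) := by
  induction k with
  | zero => rw [zero_add, pow_one, pow_one, hf]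
  | succ k ih =>
    rw [pow_succ, ih, pow_succ g (k + 1), End.mul_def, End.mul_def, hf]
    simp only [Category.assoc]
    rw [← Category.assoc i r, hir, Category.id_comp]

/-- Retracts inherit the nilpotence. -/
lemma NilR.retract {X Y : C} (h : NilR R X) (i : Y ⟶ X) (r : X ⟶ Y) (hir : i ≫ r = 𝟙 Y) :
    NilR R Y := by
  intro g hg
  set f : End X := (r ≫ (g : Y ⟶ Y) ≫ i : X ⟶ X) with hf
  have h1 : R.H.map (f : X ⟶ X) = 0 := by
    rw [hf, Functor.map_comp, Functor.map_comp, hg, zero_comp, comp_zero]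
  obtain ⟨k, hk⟩ := h f h1
  have h2 : (f ^ (k + 1) : End X) = 0 := by rw [pow_succ, hk, zero_mul]
  rw [pow_end f i r hir g hf k] at h2
  refine ⟨k + 1, ?_⟩
  have h3 : i ≫ (r ≫ ((g ^ (k + 1) : End Y) : Y ⟶ Y) ≫ i) ≫ r = i ≫ (0 : X ⟶ X) ≫ r := by
    rw [h2]
  simp only [Category.assoc, zero_comp, comp_zero] at h3
  rw [hir, Category.comp_id, ← Category.assoc, hir, Category.id_comp] at h3
  exact h3

/-- Objects with pure realisation which are retracts of a Kimura-finite object. -/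
lemma KD.pure {X : C} (D : KD X) (hU : UnitQ C) {Q : C} (i : Q ⟶ X) (r : X ⟶ Q)
    (hir : i ≫ r = 𝟙 Q) :
    (R.par Q = 𝟙 _ → asym (-1) Q (D.n + 1) = 0) ∧
      (R.par Q = -𝟙 _ → asym 1 Q (D.m + 1) = 0) := by
  have hc := R_charZero R
  have hnil : NilR R Q := (D.nilR (R := R) hU).retract i r hir
  have hz : ∀ {A B : C} (x : A ⟶ B), R.par A = 𝟙 _ → R.par B = -𝟙 _ → R.H.map x = 0 := by
    intro A B x hA hB
    have h1 := R.par_natural x
    rw [hA, hB, Category.id_comp, Preadditive.comp_neg, Category.comp_id] at h1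
    have h2 : (2 : K) • R.H.map x = 0 := by
      rw [two_smul]
      nth_rewrite 1 [← h1]
      rw [neg_add_cancel]
    have h3 := congrArg (fun z => (2 : K)⁻¹ • z) h2
    simpa only [smul_smul, inv_mul_cancel₀ (two_ne_zero : (2 : K) ≠ 0), one_smul, smul_zero] using h3
  have hz' : ∀ {A B : C} (x : A ⟶ B), R.par A = -𝟙 _ → R.par B = 𝟙 _ → R.H.map x = 0 := by
    intro A B x hA hB
    have h1 := R.par_natural x
    rw [hA, hB, Category.comp_id, Preadditive.neg_comp, Category.id_comp] at h1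
    have h2 : (2 : K) • R.H.map x = 0 := by
      rw [two_smul]
      nth_rewrite 1 [h1]
      rw [neg_add_cancel]
    have h3 := congrArg (fun z => (2 : K)⁻¹ • z) h2
    simpa only [smul_smul, inv_mul_cancel₀ (two_ne_zero : (2 : K) ≠ 0), one_smul, smul_zero] using h3
  have hsum : i ≫ (D.r ≫ D.i) ≫ r + i ≫ (D.s ≫ D.j) ≫ r = 𝟙 Q := by
    rw [← Preadditive.comp_add, ← Preadditive.add_comp, D.one, Category.id_comp, hir]
  -- a retract factoring through `A`
  have key : ∀ {A : C} (x : Q ⟶ A) (y : A ⟶ Q) (b : Q ⟶ Q), x ≫ y + b = 𝟙 Q → R.H.map b = 0 →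
      ∃ y' : A ⟶ Q, x ≫ y' = 𝟙 Q := by
    intro A x y b hxy hb
    have h1 := (hnil b hb).isUnit_one_sub
    obtain ⟨U, hU'⟩ := h1
    refine ⟨y ≫ ((↑U⁻¹ : End Q) : Q ⟶ Q), ?_⟩
    have h2 : (x ≫ y : Q ⟶ Q) = ((U : End Q) : Q ⟶ Q) := by
      rw [hU']
      change x ≫ y = 𝟙 Q - b
      rw [← hxy]
      abel
    rw [← Category.assoc, h2]
    have h3 : (↑U⁻¹ : End Q) * (U : End Q) = 1 := Units.inv_mul U
    exact h3
  constructor
  · intro hQ
    have hb : R.H.map (i ≫ (D.s ≫ D.j) ≫ r) = 0 := by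
      rw [Category.assoc, ← Category.assoc i D.s, Functor.map_comp,
        hz (i ≫ D.s) hQ (D.parO R), zero_comp]
    obtain ⟨y', hy'⟩ := key (i ≫ D.r) (D.i ≫ r) (i ≫ (D.s ≫ D.j) ≫ r) (by
      rw [← hsum]
      simp only [Category.assoc]) hb
    exact kills_retract (i ≫ D.r) y' hy' D.hE
  · intro hQ
    have hb : R.H.map (i ≫ (D.r ≫ D.i) ≫ r) = 0 := by
      rw [Category.assoc, ← Category.assoc i D.r, Functor.map_comp,
        hz' (i ≫ D.r) hQ (D.parE R), zero_comp]
    obtain ⟨y', hy'⟩ := key (i ≫ D.s) (D.j ≫ r) (i ≫ (D.r ≫ D.i) ≫ r) (by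
      rw [← hsum, add_comm]
      simp only [Category.assoc]) hb
    exact kills_retract (i ≫ D.s) y' hy' D.hO

/-- Lifting of idempotents. -/
lemma exists_idem {X : C} (hX : NilR R X) (f : X ⟶ X) (hf : R.H.map (f ≫ f - f) = 0) :
    ∃ e : X ⟶ X, e ≫ e = e ∧ R.H.map e = R.H.map f := by
  have h1 : ∀ F : End X, R.H.map ((F * F - F : End X) : X ⟶ X) = 0 → ∃ e : End X, e * e = e ∧
      R.H.map (e : X ⟶ X) = R.H.map (F : X ⟶ X) := by
    intro F hF
    obtain ⟨e, c, he, hec, -, -⟩ := Pool.Agent.Q263.NCK.exists_lift' (hX _ hF)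
    refine ⟨e, he, ?_⟩
    have h3 : e = F + (F * F - F) * c := by rw [← hec]; abel
    have h4 : R.H.map (((F * F - F) * c : End X) : X ⟶ X) = 0 := by
      rw [End.mul_def, Functor.map_comp, hF, comp_zero]
    have h5 : R.H.map ((F + (F * F - F) * c : End X) : X ⟶ X) =
        R.H.map (F : X ⟶ X) + R.H.map (((F * F - F) * c : End X) : X ⟶ X) := R.H.map_add
    rw [← h3, h4, add_zero] at h5
    exact h5
  exact h1 f hf

/-- The splitting of an object into the parts with even and odd realisation. -/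
lemma exists_parts [IsIdempotentComplete C] {X : C} (hX : NilR R X) (h : R.CPlus X) :
    ∃ (E O : C) (i : E ⟶ X) (r : X ⟶ E) (j : O ⟶ X) (s : X ⟶ O),
      i ≫ r = 𝟙 E ∧ j ≫ s = 𝟙 O ∧ i ≫ s = 0 ∧ j ≫ r = 0 ∧ r ≫ i + s ≫ j = 𝟙 X ∧
      R.par E = 𝟙 _ ∧ R.par O = -𝟙 _ := by
  have hc := R_charZero R
  obtain ⟨f, hf⟩ := h
  have hpp : (𝟙 _ + R.par X) ≫ (𝟙 _ + R.par X) = (2 : K) • (𝟙 _ + R.par X) := by
    rw [Preadditive.add_comp, Preadditive.comp_add, Preadditive.comp_add, R.par_sq]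
    simp only [Category.id_comp, Category.comp_id, two_smul]
    abel
  have hHf : R.H.map f = (2 : K)⁻¹ • (𝟙 _ + R.par X) := by
    rw [← hf, smul_smul, inv_mul_cancel₀ two_ne_zero, one_smul]
  obtain ⟨e, he, hHe'⟩ := exists_idem hX f (by
    rw [Functor.map_sub, Functor.map_comp, hHf, Linear.smul_comp, Linear.comp_smul, hpp,
      smul_smul, smul_smul, inv_mul_cancel_right₀ two_ne_zero, sub_self])
  have hHe : R.H.map e = (2 : K)⁻¹ • (𝟙 _ + R.par X) := by rw [hHe', hHf]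
  obtain ⟨E, i, r, hir, hri⟩ := IsIdempotentComplete.idempotents_split X (e : X ⟶ X) he
  have he1 : (𝟙 X - (e : X ⟶ X)) ≫ (𝟙 X - (e : X ⟶ X)) = 𝟙 X - (e : X ⟶ X) := by
    have he' : (e : X ⟶ X) ≫ (e : X ⟶ X) = e := he
    rw [Preadditive.sub_comp, Preadditive.comp_sub, Preadditive.comp_sub, he']
    simp
  obtain ⟨O, j, s, hjs, hsj⟩ := IsIdempotentComplete.idempotents_split X (𝟙 X - (e : X ⟶ X)) he1
  have hri' : r ≫ i = (e : X ⟶ X) := hri
  have hie : i ≫ (e : X ⟶ X) = i := by rw [← hri', ← Category.assoc, hir, Category.id_comp]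
  have her : (e : X ⟶ X) ≫ r = r := by rw [← hri', Category.assoc, hir, Category.comp_id]
  have hje : j ≫ (e : X ⟶ X) = 0 := by
    have h2 : j ≫ (𝟙 X - (e : X ⟶ X)) = j := by rw [← hsj, ← Category.assoc, hjs, Category.id_comp]
    rw [Preadditive.comp_sub, Category.comp_id, sub_eq_self] at h2
    exact h2
  have hes : (e : X ⟶ X) ≫ s = 0 := by
    have h2 : (𝟙 X - (e : X ⟶ X)) ≫ s = s := by rw [← hsj, Category.assoc, hjs, Category.comp_id]
    rw [Preadditive.sub_comp, Category.id_comp, sub_eq_self] at h2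
    exact h2
  have hpar : R.H.map (e : X ⟶ X) ≫ R.par X = R.H.map (e : X ⟶ X) := by
    rw [hHe, Linear.smul_comp, Preadditive.add_comp, R.par_sq, Category.id_comp, add_comm]
  have hpar' : R.H.map (𝟙 X - (e : X ⟶ X)) ≫ R.par X = -R.H.map (𝟙 X - (e : X ⟶ X)) := by
    rw [Functor.map_sub, Preadditive.sub_comp, hpar, hHe, CategoryTheory.Functor.map_id,
      Category.id_comp]
    have h2 : R.par X = (2 : K) • ((2 : K)⁻¹ • (𝟙 _ + R.par X)) - 𝟙 _ := by
      rw [smul_smul, mul_inv_cancel₀ two_ne_zero, one_smul]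
      abel
    nth_rewrite 1 [h2]
    rw [two_smul]
    abel
  refine ⟨E, O, i, r, j, s, hir, hjs, ?_, ?_, ?_, ?_, ?_⟩
  · rw [← hie, Category.assoc, hes, comp_zero]
  · rw [← her, ← Category.assoc, hje, zero_comp]
  · rw [hri', hsj]
    abel
  · have h2 : R.par E = R.H.map i ≫ (R.H.map (e : X ⟶ X) ≫ R.par X) ≫ R.H.map r := by
      rw [Category.assoc, ← R.par_natural, ← Functor.map_comp_assoc, ← Functor.map_comp_assoc,
        hie, hir, CategoryTheory.Functor.map_id, Category.id_comp]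
    rw [h2, hpar, ← Functor.map_comp, ← Functor.map_comp, her, hir, CategoryTheory.Functor.map_id]
  · have h2 : R.par O = R.H.map j ≫ (R.H.map (𝟙 X - (e : X ⟶ X)) ≫ R.par X) ≫ R.H.map s := by
      rw [Category.assoc, ← R.par_natural, ← Functor.map_comp_assoc, ← Functor.map_comp_assoc,
        Preadditive.comp_sub, hje, Category.comp_id, sub_zero, hjs, CategoryTheory.Functor.map_id,
        Category.id_comp]
    rw [h2, hpar', Preadditive.neg_comp, Preadditive.comp_neg, ← Functor.map_comp,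
      ← Functor.map_comp, Preadditive.sub_comp, hes, Category.id_comp, sub_zero, hjs,
      CategoryTheory.Functor.map_id]

end

end Pool.Agent.Q263.KT
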