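import Pool.Agent.Q263.KT.Final

/-!
# Tensor powers and duals
-/

set_option autoImplicit false
set_option linter.unusedSectionVars false
set_option linter.unusedSimpArgs false
set_option backward.isDefEq.respectTransparency false
set_option backward.defeqAttrib.useBackward true

open CategoryTheory Limits MonoidalCategory
open Pool.Agent.Y112.SR Pool.Agent.Y112.KD Pool.Agent.TH829.Kim

namespace Pool.Agent.Q263.KT

universe v u w

open Functor.LaxMonoidal Functor.OplaxMonoidal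

section

variable {C : Type u} [Category.{v} C] [Preadditive C] [Linear ℚ C] [MonoidalCategory C]
  [MonoidalPreadditive C] [MonoidalLinear ℚ C] [SymmetricCategory C]
  [RightRigidCategory C] {K : Type w} [Field K] {R : SuperRealisation C K}

lemma zero_retract {X Y : C} (i : Y ⟶ X) (r : X ⟶ Y) (hir : i ≫ r = 𝟙 Y) (h : 𝟙 X = 0) :
    𝟙 Y = 0 := by
  rw [← hir, ← Category.id_comp r, h, zero_comp, comp_zero]

lemma zero_tensor {X : C} (Y : C) (h : 𝟙 X = 0) : 𝟙 (X ⊗ Y) = 0 := by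
  rw [← id_whiskerRight, h]
  simp

lemma zero_tensor' {X : C} (Y : C) (h : 𝟙 X = 0) : 𝟙 (Y ⊗ X) = 0 := by
  rw [← MonoidalCategory.whiskerLeft_id, h]
  simp

/-- An object `Q ⊗ M` is a retract of `((Q ⊗ M) ⊗ M') ⊗ M`, where `M'` is the dual of `M`. -/
lemma zero_of_dual {M : C} (h : 𝟙 (M ⊗ Mᘁ) = 0) : 𝟙 M = 0 := by
  refine zero_retract (X := (M ⊗ Mᘁ) ⊗ M) ((λ_ M).inv ≫ η_ M Mᘁ ▷ M)
    ((α_ M Mᘁ M).hom ≫ M ◁ ε_ M Mᘁ ≫ (ρ_ M).hom) ?_ (zero_tensor M h)
  rw [Category.assoc, ExactPairing.evaluation_coevaluation_assoc]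
  simp

lemma zero_of_tp {M : C} (n : ℕ) (h : 𝟙 (tp M (n + 1)) = 0) : 𝟙 M = 0 := by
  induction n with
  | zero => exact zero_retract (X := tp M 1) (λ_ M).inv (λ_ M).hom (by simp) h
  | succ n ih =>
    apply ih
    -- `Q ⊗ M` is a retract of `((Q ⊗ M) ⊗ M) ⊗ M'`
    have h1 : 𝟙 ((tp M (n + 1) ⊗ M) ⊗ Mᘁ) = 0 := zero_tensor _ h
    have h2 : 𝟙 (tp M (n + 1) ⊗ (M ⊗ Mᘁ)) = 0 :=
      zero_retract (α_ _ _ _).inv (α_ _ _ _).hom (by simp) h1
    have h3 : 𝟙 (tp M n ⊗ (M ⊗ (M ⊗ Mᘁ))) = 0 :=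
      zero_retract (X := (tp M n ⊗ M) ⊗ (M ⊗ Mᘁ)) (α_ _ _ _).inv (α_ _ _ _).hom (by simp) h2
    have h4 : 𝟙 (tp M n ⊗ ((M ⊗ Mᘁ) ⊗ M)) = 0 :=
      zero_retract (tp M n ◁ (β_ (M ⊗ Mᘁ) M).hom) (tp M n ◁ (β_ (M ⊗ Mᘁ) M).inv)
        (by rw [← MonoidalCategory.whiskerLeft_comp]; simp) h3
    refine zero_retract (X := tp M n ⊗ ((M ⊗ Mᘁ) ⊗ M))
      (tp M n ◁ ((λ_ M).inv ≫ η_ M Mᘁ ▷ M))
      (tp M n ◁ ((α_ M Mᘁ M).hom ≫ M ◁ ε_ M Mᘁ ≫ (ρ_ M).hom)) ?_ h4
    rw [← MonoidalCategory.whiskerLeft_comp, Category.assoc,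
      ExactPairing.evaluation_coevaluation_assoc]
    simp

lemma isZero_tensor_left (R : SuperRealisation C K) {M : C} (N : C) (h : IsZero (R.H.obj M)) :
    IsZero (R.H.obj (M ⊗ N)) := by
  have h1 : IsZero (R.H.obj M ⊗ R.H.obj N) := by
    rw [IsZero.iff_id_eq_zero] at h ⊢
    rw [← id_whiskerRight, h, MonoidalPreadditive.zero_whiskerRight]
  exact h1.of_iso (Functor.Monoidal.μIso R.H M N).symm

lemma isZero_tensor_right (R : SuperRealisation C K) {M : C} (N : C) (h : IsZero (R.H.obj M)) :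
    IsZero (R.H.obj (N ⊗ M)) := by
  have h1 : IsZero (R.H.obj N ⊗ R.H.obj M) := by
    rw [IsZero.iff_id_eq_zero] at h ⊢
    rw [← MonoidalCategory.whiskerLeft_id, h, MonoidalPreadditive.whiskerLeft_zero]
  exact h1.of_iso (Functor.Monoidal.μIso R.H N M).symm

/-- A Kimura-finite object with zero realisation is zero. -/
lemma zero_of_isKimura (R : SuperRealisation C K) (hU : UnitQ C) {X : C} (h : IsKimura X)
    (h0 : IsZero (R.H.obj X)) : 𝟙 X = 0 := by
  obtain ⟨D⟩ := exists_KD h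
  obtain ⟨k, hk⟩ := D.nilR (R := R) hU (1 : End X) (h0.eq_of_src _ _)
  rw [one_pow] at hk
  exact hk

lemma not_isZero_tp (R : SuperRealisation C K) {M : C} (hM : ¬ IsZero (R.H.obj M)) (n : ℕ) :
    ¬ IsZero (R.H.obj (tp M n)) := by
  induction n with
  | zero =>
    intro h
    have h1 : IsZero (𝟙_ (ModuleCat.{w} K)) := h.of_iso (Functor.Monoidal.εIso R.H)
    have h4 := LinearMap.congr_fun (congrArg ModuleCat.Hom.hom
      ((IsZero.iff_id_eq_zero _).mp h1)) (1 : K)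
    exact one_ne_zero (α := K) h4
  | succ n ih => exact not_isZero_tensor R ih hM

/-- Kimura-finiteness descends from tensor powers. -/
theorem isKimura_of_tp [IsIdempotentComplete C] (R : SuperRealisation C K) (hU : UnitQ C)
    {M : C} {n : ℕ} (hn : 1 ≤ n) (h : IsKimura (tp M n)) : IsKimura M := by
  obtain ⟨n, rfl⟩ := Nat.exists_eq_add_of_le' hn
  by_cases hM : IsZero (R.H.obj M)
  · apply isKimura_of_zero
    apply zero_of_tp n
    exact zero_of_isKimura R hU h (isZero_tensor_right R (tp M n) hM)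
  · have h1 : IsKimura (M ⊗ tp M n) := isKimura_of_retract R hU (X := tp M (n + 1))
      (β_ M (tp M n)).hom (β_ M (tp M n)).inv (by simp) h
    exact isKimura_of_tensor R hU (not_isZero_tp R hM n) (Or.inl hM) h1

/-- The realisation of the dual. -/
lemma not_isZero_dual (R : SuperRealisation C K) {M : C} (hM : ¬ IsZero (R.H.obj M)) :
    ¬ IsZero (R.H.obj Mᘁ) := by
  intro h
  apply hM
  have h1 := zigzag R M
  have h2 : evb R M = 0 := by
    have h3 : IsZero (R.H.obj Mᘁ ⊗ R.H.obj M) := by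
      rw [IsZero.iff_id_eq_zero] at h ⊢
      rw [← id_whiskerRight, h, MonoidalPreadditive.zero_whiskerRight]
    exact h3.eq_zero_of_src _
  rw [h2, MonoidalPreadditive.whiskerLeft_zero, comp_zero, comp_zero] at h1
  rw [IsZero.iff_id_eq_zero]
  have h4 : 𝟙 (R.H.obj M) = (λ_ (R.H.obj M)).inv ≫ ((λ_ (R.H.obj M)).hom ≫ (ρ_ (R.H.obj M)).inv) ≫
      (ρ_ (R.H.obj M)).hom := by simp
  rw [h4, ← h1, zero_comp, comp_zero]

/-- Kimura-finiteness descends from the internal endomorphisms. -/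
theorem isKimura_of_dual [IsIdempotentComplete C] (R : SuperRealisation C K) (hU : UnitQ C)
    {M : C} (h : IsKimura (M ⊗ Mᘁ)) : IsKimura M := by
  by_cases hM : IsZero (R.H.obj M)
  · apply isKimura_of_zero
    apply zero_of_dual
    exact zero_of_isKimura R hU h (isZero_tensor_left R Mᘁ hM)
  · exact isKimura_of_tensor R hU (not_isZero_dual R hM) (Or.inl hM) h

end

end Pool.Agent.Q263.KT
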