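import Pool.Agent.Y112.KD.Zip
import Pool.Agent.Y112.KD.Real

/-!
# Realisations of even and odd objects
-/

set_option autoImplicit false
set_option linter.unusedSectionVars false
set_option linter.unusedSimpArgs false
set_option backward.isDefEq.respectTransparency false
set_option backward.defeqAttrib.useBackward true

open CategoryTheory Limits MonoidalCategory
open Pool.Agent.Y112.SR Pool.Agent.Y112.KD
open scoped TensorProduct

namespace Pool.Agent.Q263.KT

universe v u w

open Functor.LaxMonoidal Functor.OplaxMonoidal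

section

variable {C : Type u} [Category.{v} C] [Preadditive C] [MonoidalCategory C] [SymmetricCategory C]
  {K : Type w} [Field K] (R : SuperRealisation C K)

/-- The external product of vectors of the realisations. -/
noncomputable def tv {X Y : C} (a : R.H.obj X) (b : R.H.obj Y) : R.H.obj (X ⊗ Y) :=
  (μ R.H X Y).hom (a ⊗ₜ[K] b)

lemma tv_nat {X X' Y Y' : C} (f : X ⟶ X') (g : Y ⟶ Y') (a : R.H.obj X) (b : R.H.obj Y) :
    (R.H.map (f ⊗ₘ g)).hom (tv R a b) = tv R ((R.H.map f).hom a) ((R.H.map g).hom b) := by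
  have h := Functor.LaxMonoidal.μ_natural (F := R.H) f g
  have h1 := LinearMap.congr_fun (congrArg ModuleCat.Hom.hom h) (a ⊗ₜ[K] b)
  rw [ModuleCat.hom_comp, ModuleCat.hom_comp, LinearMap.comp_apply, LinearMap.comp_apply] at h1
  exact h1.symm

lemma tv_right {X X' Y : C} (f : X ⟶ X') (a : R.H.obj X) (b : R.H.obj Y) :
    (R.H.map (f ▷ Y)).hom (tv R a b) = tv R ((R.H.map f).hom a) b := by
  rw [← tensorHom_id, tv_nat, CategoryTheory.Functor.map_id]
  rfl

lemma tv_left {X Y Y' : C} (g : Y ⟶ Y') (a : R.H.obj X) (b : R.H.obj Y) :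
    (R.H.map (X ◁ g)).hom (tv R a b) = tv R a ((R.H.map g).hom b) := by
  rw [← id_tensorHom, tv_nat, CategoryTheory.Functor.map_id]
  rfl

lemma tv_assoc {X Y Z : C} (a : R.H.obj X) (b : R.H.obj Y) (c : R.H.obj Z) :
    (R.H.map (α_ X Y Z).hom).hom (tv R (tv R a b) c) = tv R a (tv R b c) := by
  have h := Functor.LaxMonoidal.associativity (F := R.H) X Y Z
  have h1 := LinearMap.congr_fun (congrArg ModuleCat.Hom.hom h) ((a ⊗ₜ[K] b) ⊗ₜ[K] c)
  exact h1

lemma tv_assoc_inv {X Y Z : C} (a : R.H.obj X) (b : R.H.obj Y) (c : R.H.obj Z) :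
    (R.H.map (α_ X Y Z).inv).hom (tv R a (tv R b c)) = tv R (tv R a b) c := by
  rw [← tv_assoc, ← LinearMap.comp_apply, ← ModuleCat.hom_comp, ← Functor.map_comp,
    Iso.hom_inv_id, CategoryTheory.Functor.map_id]
  rfl

lemma tv_smul_left {X Y : C} (c : K) (a : R.H.obj X) (b : R.H.obj Y) :
    tv R (c • a) b = c • tv R a b := by
  rw [tv, tv, ← TensorProduct.smul_tmul', map_smul]

lemma tv_smul_right {X Y : C} (c : K) (a : R.H.obj X) (b : R.H.obj Y) :
    tv R a (c • b) = c • tv R a b := by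
  rw [tv, tv, TensorProduct.tmul_smul, map_smul]

lemma tv_braid (h2 : (2 : K) ≠ 0) {X : C} (v : R.H.obj X) (η : K) (hη : η * η = 1)
    (hv : (R.par X).hom v = η • v) :
    (R.H.map (β_ X X).hom).hom (tv R v v) = η • tv R v v := by
  have h := R.symm X X
  have h1 := LinearMap.congr_fun (congrArg ModuleCat.Hom.hom h) (v ⊗ₜ[K] v)
  have e1 : ((2 : K) • (μ R.H X X ≫ R.H.map (β_ X X).hom)).hom (v ⊗ₜ[K] v) =
      (2 : K) • (R.H.map (β_ X X).hom).hom (tv R v v) := rfl
  have e2 : ((𝟙 _ + R.par X ▷ R.H.obj X + R.H.obj X ◁ R.par X - (R.par X ⊗ₘ R.par X)) ≫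
      (β_ (R.H.obj X) (R.H.obj X)).hom ≫ μ R.H X X).hom (v ⊗ₜ[K] v) =
      (μ R.H X X).hom ((β_ (R.H.obj X) (R.H.obj X)).hom.hom
        (v ⊗ₜ[K] v + (R.par X).hom v ⊗ₜ[K] v + v ⊗ₜ[K] (R.par X).hom v -
          (R.par X).hom v ⊗ₜ[K] (R.par X).hom v)) := rfl
  have e3 : v ⊗ₜ[K] v + (R.par X).hom v ⊗ₜ[K] v + v ⊗ₜ[K] (R.par X).hom v -
      (R.par X).hom v ⊗ₜ[K] (R.par X).hom v = (2 * η) • (v ⊗ₜ[K] v) := by
    rw [hv, ← TensorProduct.smul_tmul', TensorProduct.tmul_smul, TensorProduct.tmul_smul,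
      ← TensorProduct.smul_tmul', smul_smul, hη, one_smul, two_mul, add_smul]
    abel
  rw [e1, e2, e3, map_smul, map_smul] at h1
  have e4 : (μ R.H X X).hom ((β_ (R.H.obj X) (R.H.obj X)).hom.hom (v ⊗ₜ[K] v)) = tv R v v := rfl
  rw [e4, mul_smul] at h1
  have h3 := congrArg (fun z => (2 : K)⁻¹ • z) h1
  beta_reduce at h3
  rwa [smul_smul, inv_mul_cancel₀ h2, one_smul, smul_smul, inv_mul_cancel₀ h2, one_smul] at h3

lemma tv_sw (h2 : (2 : K) ≠ 0) {Q X : C} (q : R.H.obj Q) (v : R.H.obj X) (η : K)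
    (hη : η * η = 1) (hv : (R.par X).hom v = η • v) :
    (R.H.map (sw Q X)).hom (tv R (tv R q v) v) = η • tv R (tv R q v) v := by
  rw [sw, Functor.map_comp, Functor.map_comp, ModuleCat.hom_comp, ModuleCat.hom_comp,
    LinearMap.comp_apply, LinearMap.comp_apply, tv_assoc, tv_left, tv_braid R h2 v η hη hv,
    tv_smul_right, map_smul, tv_assoc_inv]

lemma tv_ne_zero {X Y : C} {a : R.H.obj X} {b : R.H.obj Y} (ha : a ≠ 0) (hb : b ≠ 0) :
    tv R a b ≠ 0 := by
  intro h
  have h1 : a ⊗ₜ[K] b = (0 : R.H.obj X ⊗[K] R.H.obj Y) := by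
    have h2 := congrArg (δ R.H X Y).hom h
    rw [map_zero] at h2
    have h3 : (δ R.H X Y).hom (tv R a b) = a ⊗ₜ[K] b := by
      have h4 := LinearMap.congr_fun (congrArg ModuleCat.Hom.hom (Functor.Monoidal.μ_δ R.H X Y))
        (a ⊗ₜ[K] b)
      exact h4
    rw [h3] at h2
    exact h2
  obtain ⟨f, hf⟩ := Module.Projective.exists_dual_ne_zero K hb
  have h2 := congrArg ((TensorProduct.rid K (R.H.obj X)).toLinearMap ∘ₗ LinearMap.lTensor (R.H.obj X) f) h1
  rw [map_zero] at h2
  have h3 : ((TensorProduct.rid K (R.H.obj X)).toLinearMap ∘ₗ LinearMap.lTensor (R.H.obj X) f) (a ⊗ₜ[K] b) =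
      f b • a := by
    simp
  rw [h3] at h2
  exact ha ((smul_eq_zero.1 h2).resolve_left hf)

/-- The tensor powers of a vector. -/
noncomputable def vp {X : C} (v : R.H.obj X) : ∀ n : ℕ, R.H.obj (tp X n)
  | 0 => (ε R.H).hom (1 : K)
  | n + 1 => tv R (vp v n) v

lemma vp_ne_zero {X : C} {v : R.H.obj X} (hv : v ≠ 0) (n : ℕ) : vp R v n ≠ 0 := by
  induction n with
  | zero =>
    intro h
    have h1 := LinearMap.congr_fun (congrArg ModuleCat.Hom.hom (Functor.Monoidal.ε_η R.H)) (1 : K)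
    have h2 : (η R.H).hom ((ε R.H).hom (1 : K)) = (1 : K) := h1
    have h3 : (ε R.H).hom (1 : K) = 0 := h
    rw [h3, map_zero] at h2
    exact zero_ne_one h2
  | succ n ih => exact tv_ne_zero R ih hv

end

section

variable {C : Type u} [Category.{v} C] [Preadditive C] [Linear ℚ C] [MonoidalCategory C]
  [MonoidalPreadditive C] [MonoidalLinear ℚ C] [SymmetricCategory C]
  [RightRigidCategory C] {K : Type w} [Field K] (R : SuperRealisation C K)

lemma map_rsmul {X Y : C} (q : ℚ) (f : X ⟶ Y) (x : R.H.obj X) [CharZero K] :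
    (R.H.map (q • f)).hom x = (q : K) • (R.H.map f).hom x := by
  rw [R_smul]
  rfl

lemma map_radd {X Y : C} (f g : X ⟶ Y) (x : R.H.obj X) :
    (R.H.map (f + g)).hom x = (R.H.map f).hom x + (R.H.map g).hom x := by
  rw [Functor.map_add]
  rfl

lemma map_rcomp {X Y Z : C} (f : X ⟶ Y) (g : Y ⟶ Z) (x : R.H.obj X) :
    (R.H.map (f ≫ g)).hom x = (R.H.map g).hom ((R.H.map f).hom x) := by
  rw [Functor.map_comp]
  rfl

/-- The (anti)symmetrizer fixes the powers of odd (even) vectors. -/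
lemma asym_vp {η : ℚ} (hη : η * η = 1) {X : C} {v : R.H.obj X}
    (hv : (R.par X).hom v = (η : K) • v) (n : ℕ) :
    (R.H.map (asym η X n)).hom (vp R v n) = vp R v n := by
  have hc := R_charZero R
  have hη' : (η : K) * η = 1 := by exact_mod_cast hη
  induction n with
  | zero =>
    rw [asym_zero, CategoryTheory.Functor.map_id]
    rfl
  | succ n ih =>
    rcases n with - | n
    · rw [asym_one, CategoryTheory.Functor.map_id]
      rfl
    · have h1 : (R.H.map (asym η X (n + 1) ▷ X)).hom (vp R v (n + 2)) = vp R v (n + 2) := by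
        change (R.H.map (asym η X (n + 1) ▷ X)).hom (tv R (vp R v (n + 1)) v) = _
        rw [tv_right, ih]
        rfl
      have h2 : (R.H.map (sw (tp X n) X)).hom (vp R v (n + 2)) = (η : K) • vp R v (n + 2) :=
        tv_sw R two_ne_zero (vp R v n) v η hη' hv
      rw [asym_succ, map_rsmul, map_radd, map_rsmul, map_rcomp, map_rcomp, h1, h2, map_smul, h1]
      have hn : (((n + 1 : ℕ) : K) + 1) ≠ 0 := by exact_mod_cast Nat.succ_ne_zero (n + 1)
      have e1 : ((η * ((n + 1 : ℕ) : ℚ) : ℚ) : K) * (η : K) = ((n + 1 : ℕ) : K) := by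
        push_cast
        linear_combination ((n : K) + 1) * hη'
      have e2 : ((((n + 1 : ℕ) : ℚ) + 1)⁻¹ : ℚ) = (((((n + 1 : ℕ) : K) + 1)⁻¹ : K)) := by
        push_cast
        rfl
      rw [smul_smul, e1, e2]
      have e3 : vp R v (n + 2) + ((n + 1 : ℕ) : K) • vp R v (n + 2) =
          (((n + 1 : ℕ) : K) + 1) • vp R v (n + 2) := by
        rw [add_smul, one_smul]
        exact add_comm _ _
      rw [e3, smul_smul, inv_mul_cancel₀ hn, one_smul]

/-- An even (odd) object has an even (odd) realisation. -/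
theorem par_of_asym {η : ℚ} (hη : η * η = 1) {X : C} {n : ℕ} (h : asym η X n = 0) :
    R.par X = (-η : K) • 𝟙 _ := by
  have hc := R_charZero R
  have hη' : (η : K) * η = 1 := by exact_mod_cast hη
  have key : ∀ v : R.H.obj X, (R.par X).hom v = (η : K) • v → v = 0 := by
    intro v hv
    by_contra hne
    have h1 := asym_vp R hη hv n
    rw [h, Functor.map_zero] at h1
    exact vp_ne_zero R hne n h1.symm
  apply ModuleCat.hom_ext
  apply LinearMap.ext
  intro x
  have hpp : (R.par X).hom ((R.par X).hom x) = x := by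
    have h1 := LinearMap.congr_fun (congrArg ModuleCat.Hom.hom (R.par_sq X)) x
    exact h1
  have h1 := key (x + (η : K) • (R.par X).hom x) (by
    rw [map_add, map_smul, hpp, smul_add, smul_smul, hη', one_smul, add_comm])
  have h2 : (R.par X).hom x = (η : K) • (η : K) • (R.par X).hom x := by
    rw [smul_smul, hη', one_smul]
  have h3 : (η : K) • (R.par X).hom x = -x := by
    rw [eq_neg_iff_add_eq_zero, add_comm]
    exact h1
  rw [h2, h3]
  change _ = (-η : K) • x
  rw [smul_neg, neg_smul]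

end

end Pool.Agent.Q263.KT
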